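import Pool.Agent.H41.AL.Defs

set_option autoImplicit false

/-!
# Random splitting of the vertices (proof of `S_PART`), helper134 for helper41

Exponential moments for a uniformly random map `ρ : V → Fin K`.
-/

namespace Pool.Agent.H134.AL

open Finset Pool.Agent.H41.AL

section
variable {V : Type} [Fintype V] [DecidableEq V] (G : SimpleGraph V) [DecidableRel G.Adj]

/-- the exponential moment of the number of the neighbours of `v` in the class `i` -/
theorem moment (K : ℕ) (hK : 1 ≤ K) (D : ℕ) (v : V) (i : Fin K) (s : ℝ) (hs : 0 ≤ s)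
    (hD : (univ.filter (G.Adj v)).card ≤ D) :
    ∑ ρ : V → Fin K, Real.exp (s * ((univ.filter fun u => G.Adj v u ∧ ρ u = i).card : ℝ)) ≤
      (K : ℝ) ^ Fintype.card V * Real.exp (D * ((Real.exp s - 1) / K)) := by
  have hK0 : (0 : ℝ) < K := by exact_mod_cast hK
  have h1 : ∀ ρ : V → Fin K,
      Real.exp (s * ((univ.filter fun u => G.Adj v u ∧ ρ u = i).card : ℝ)) =
        ∏ u, (if G.Adj v u ∧ ρ u = i then Real.exp s else 1) := by
    intro ρ
    rw [Finset.prod_ite, prod_const, prod_const_one, mul_one, mul_comm, Real.exp_nat_mul]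
  rw [sum_congr rfl fun ρ _ => h1 ρ]
  have h2 : ∑ ρ : V → Fin K, ∏ u, (if G.Adj v u ∧ ρ u = i then Real.exp s else (1 : ℝ)) =
      ∏ u, ∑ j : Fin K, (if G.Adj v u ∧ j = i then Real.exp s else (1 : ℝ)) := by
    rw [Finset.prod_univ_sum, Fintype.piFinset_univ]
  rw [h2]
  have h3 : ∀ u, ∑ j : Fin K, (if G.Adj v u ∧ j = i then Real.exp s else (1 : ℝ)) ≤
      K * (if G.Adj v u then Real.exp ((Real.exp s - 1) / K) else 1) := by
    intro u
    by_cases hu : G.Adj v u
    · simp only [hu, true_and, if_true]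
      have h4 : ∑ j : Fin K, (if j = i then Real.exp s else (1 : ℝ)) =
          ∑ j : Fin K, ((1 : ℝ) + if j = i then (Real.exp s - 1) else 0) :=
        sum_congr rfl fun j _ => by split_ifs <;> ring
      rw [h4, sum_add_distrib, sum_const, card_univ, Fintype.card_fin, nsmul_eq_mul, mul_one,
        sum_ite_eq', if_pos (mem_univ _)]
      have h5 := Real.add_one_le_exp ((Real.exp s - 1) / K)
      have h6 : (K : ℝ) + (Real.exp s - 1) = K * ((Real.exp s - 1) / K + 1) := by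
        rw [mul_add, mul_div_cancel₀ _ hK0.ne']
        ring
      rw [h6]
      exact mul_le_mul_of_nonneg_left h5 hK0.le
    · simp [hu]
  have h7 : ∏ u, ∑ j : Fin K, (if G.Adj v u ∧ j = i then Real.exp s else (1 : ℝ)) ≤
      ∏ u : V, ((K : ℝ) * (if G.Adj v u then Real.exp ((Real.exp s - 1) / K) else 1)) := by
    refine prod_le_prod (fun u _ => sum_nonneg fun j _ => ?_) (fun u _ => h3 u)
    split_ifs
    · exact (Real.exp_pos _).le
    · exact zero_le_one
  refine h7.trans ?_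
  rw [prod_mul_distrib, prod_const, card_univ, Finset.prod_ite, prod_const, prod_const_one, mul_one,
    Real.exp_nat_mul]
  have h8 : 1 ≤ Real.exp ((Real.exp s - 1) / K) := by
    apply Real.one_le_exp
    have := Real.add_one_le_exp s
    exact div_nonneg (by linarith) hK0.le
  exact mul_le_mul_of_nonneg_left (pow_le_pow_right₀ h8 hD) (pow_nonneg hK0.le _)

end

theorem part : S_PART := by
  intro ε K hε hε1 hK
  have hK0 : (0 : ℝ) < K := by exact_mod_cast hK
  have hc : 0 < ε ^ 2 / (8 * K) := by positivity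
  refine ⟨ε ^ 2 / (8 * K), hc, ⌈(K : ℝ) / (ε ^ 2 / (8 * K))⌉₊, ?_⟩
  intro D hD V _ _ G _ hdeg hV
  by_contra hcon
  push Not at hcon
  have hs : 0 ≤ ε / 2 := by positivity
  have hD' : (K : ℝ) ≤ ε ^ 2 / (8 * K) * D := by
    have h1 : (K : ℝ) / (ε ^ 2 / (8 * K)) ≤ D := (Nat.le_ceil _).trans (by exact_mod_cast hD)
    rwa [div_le_iff₀ hc, mul_comm] at h1
  have hlow : ∀ ρ : V → Fin K, Real.exp (ε / 2 * ((1 + ε) * D / K)) ≤
      ∑ v : V, ∑ i : Fin K,
        Real.exp (ε / 2 * ((univ.filter fun u => G.Adj v u ∧ ρ u = i).card : ℝ)) := by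
    intro ρ
    obtain ⟨v, i, h⟩ := hcon ρ
    calc Real.exp (ε / 2 * ((1 + ε) * D / K))
        ≤ Real.exp (ε / 2 * ((univ.filter fun u => G.Adj v u ∧ ρ u = i).card : ℝ)) :=
          Real.exp_le_exp.2 (mul_le_mul_of_nonneg_left h.le hs)
      _ ≤ ∑ i : Fin K, Real.exp (ε / 2 * ((univ.filter fun u => G.Adj v u ∧ ρ u = i).card : ℝ)) :=
          single_le_sum (f := fun i : Fin K =>
            Real.exp (ε / 2 * ((univ.filter fun u => G.Adj v u ∧ ρ u = i).card : ℝ)))
            (fun _ _ => (Real.exp_pos _).le) (mem_univ i)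
      _ ≤ _ :=
          single_le_sum (f := fun v : V => ∑ i : Fin K,
            Real.exp (ε / 2 * ((univ.filter fun u => G.Adj v u ∧ ρ u = i).card : ℝ)))
            (fun _ _ => sum_nonneg fun _ _ => (Real.exp_pos _).le) (mem_univ v)
  have h1 : (K : ℝ) ^ Fintype.card V * Real.exp (ε / 2 * ((1 + ε) * D / K)) ≤
      ∑ ρ : V → Fin K, ∑ v : V, ∑ i : Fin K,
        Real.exp (ε / 2 * ((univ.filter fun u => G.Adj v u ∧ ρ u = i).card : ℝ)) := by
    have e : (K : ℝ) ^ Fintype.card V * Real.exp (ε / 2 * ((1 + ε) * D / K)) =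
        ∑ _ρ : V → Fin K, Real.exp (ε / 2 * ((1 + ε) * D / K)) := by
      rw [sum_const, card_univ, Fintype.card_fun, Fintype.card_fin, nsmul_eq_mul]
      push_cast
      rfl
    rw [e]
    exact sum_le_sum fun ρ _ => hlow ρ
  have h2 : ∑ ρ : V → Fin K, ∑ v : V, ∑ i : Fin K,
        Real.exp (ε / 2 * ((univ.filter fun u => G.Adj v u ∧ ρ u = i).card : ℝ)) ≤
      (Fintype.card V : ℝ) * ((K : ℝ) *
        ((K : ℝ) ^ Fintype.card V * Real.exp (D * ((Real.exp (ε / 2) - 1) / K)))) := by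
    rw [sum_comm]
    have h3 : ∀ v : V, ∑ ρ : V → Fin K, ∑ i : Fin K,
        Real.exp (ε / 2 * ((univ.filter fun u => G.Adj v u ∧ ρ u = i).card : ℝ)) ≤
        (K : ℝ) * ((K : ℝ) ^ Fintype.card V * Real.exp (D * ((Real.exp (ε / 2) - 1) / K))) := by
      intro v
      rw [sum_comm]
      refine (sum_le_sum fun i _ => moment G K hK D v i (ε / 2) hs (hdeg v)).trans ?_
      rw [sum_const, card_univ, Fintype.card_fin, nsmul_eq_mul]
    refine (sum_le_sum fun v _ => h3 v).trans ?_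
    rw [sum_const, card_univ, nsmul_eq_mul]
  have hKV : (0 : ℝ) < (K : ℝ) ^ Fintype.card V := pow_pos hK0 _
  have h3 : Real.exp (ε / 2 * ((1 + ε) * D / K)) ≤
      (Fintype.card V : ℝ) * ((K : ℝ) * Real.exp (D * ((Real.exp (ε / 2) - 1) / K))) := by
    have h4 : (K : ℝ) ^ Fintype.card V * Real.exp (ε / 2 * ((1 + ε) * D / K)) ≤
        (K : ℝ) ^ Fintype.card V * ((Fintype.card V : ℝ) *
          ((K : ℝ) * Real.exp (D * ((Real.exp (ε / 2) - 1) / K)))) := by
      refine (h1.trans h2).trans (le_of_eq ?_)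
      ring
    exact le_of_mul_le_mul_left h4 hKV
  have h4 : Real.exp (ε / 2) - 1 ≤ ε / 2 + (ε / 2) ^ 2 := by
    have h5 := Real.abs_exp_sub_one_sub_id_le (x := ε / 2) (by rw [abs_of_nonneg hs]; linarith)
    have h6 := (abs_le.1 h5).2
    linarith
  have h5 : (D : ℝ) * ((Real.exp (ε / 2) - 1) / K) ≤
      ε / 2 * ((1 + ε) * D / K) - 2 * (ε ^ 2 / (8 * K) * D) := by
    have e : ε / 2 * ((1 + ε) * D / K) - 2 * (ε ^ 2 / (8 * K) * D) =
        (D : ℝ) * ((ε / 2 + (ε / 2) ^ 2) / K) := by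
      field_simp
      ring
    rw [e]
    exact mul_le_mul_of_nonneg_left (div_le_div_of_nonneg_right h4 hK0.le) (Nat.cast_nonneg _)
  have h6 : Real.exp (D * ((Real.exp (ε / 2) - 1) / K)) ≤
      Real.exp (ε / 2 * ((1 + ε) * D / K)) * Real.exp (-(2 * (ε ^ 2 / (8 * K) * D))) := by
    rw [← Real.exp_add]
    exact Real.exp_le_exp.2 (by linarith)
  have h7 : (K : ℝ) < Real.exp (ε ^ 2 / (8 * K) * D) := by
    have := Real.add_one_le_exp (ε ^ 2 / (8 * K) * D)
    linarith
  have hpos := Real.exp_pos (ε / 2 * ((1 + ε) * D / K))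
  have h8 : Real.exp (ε / 2 * ((1 + ε) * D / K)) * 1 ≤
      Real.exp (ε / 2 * ((1 + ε) * D / K)) *
        (Real.exp (ε ^ 2 / (8 * K) * D) * ((K : ℝ) * Real.exp (-(2 * (ε ^ 2 / (8 * K) * D))))) := by
    rw [mul_one]
    calc Real.exp (ε / 2 * ((1 + ε) * D / K))
        ≤ (Fintype.card V : ℝ) * ((K : ℝ) * Real.exp (D * ((Real.exp (ε / 2) - 1) / K))) := h3
      _ ≤ Real.exp (ε ^ 2 / (8 * K) * D) * ((K : ℝ) *
          (Real.exp (ε / 2 * ((1 + ε) * D / K)) * Real.exp (-(2 * (ε ^ 2 / (8 * K) * D))))) := by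
          gcongr
      _ = _ := by ring
  have h9 := le_of_mul_le_mul_left h8 hpos
  have h10 : Real.exp (ε ^ 2 / (8 * K) * D) * ((K : ℝ) * Real.exp (-(2 * (ε ^ 2 / (8 * K) * D)))) =
      K / Real.exp (ε ^ 2 / (8 * K) * D) := by
    have e : Real.exp (-(2 * (ε ^ 2 / (8 * K) * D))) =
        (Real.exp (ε ^ 2 / (8 * K) * D))⁻¹ * (Real.exp (ε ^ 2 / (8 * K) * D))⁻¹ := by
      rw [← Real.exp_neg, ← Real.exp_add]
      congr 1
      ring
    have hne := (Real.exp_pos (ε ^ 2 / (8 * K) * D)).ne'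
    rw [e]
    field_simp
  rw [h10, le_div_iff₀ (Real.exp_pos _), one_mul] at h9
  linarith

end Pool.Agent.H134.AL
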